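import Pool.Agent.Q257.Bhargava

/-!
# The Bhargava factorial of the set of twin primes: the conjectured ratio fails for `n = 22`

`23` is not a twin prime. Hence the twin primes lie in the `22` invertible classes modulo `23`, two of the
first `23` elements of every `23`-ordering of the twin primes are congruent modulo `23`, and `23` divides
`22!` of the twin primes. The primes meet all the `23` classes, so `23` does not divide `22!` of the primes.
The conjectured value `2 w_2(22)` of the ratio is not divisible by `23` either.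
-/

set_option autoImplicit false

namespace Pool.Agent.Results.MP_e482b1_nt.TwinPrimeRatioFails

open Finset Q257.Bh

/-- the set of all primes -/
def P : Set ℤ := {x | ∃ q : ℕ, q.Prime ∧ x = q}

/-- the set of the twin primes: the primes `q` such that `q - 2` or `q + 2` is a prime -/
def P2 : Set ℤ := {x | ∃ q : ℕ, q.Prime ∧ ((q - 2).Prime ∨ (q + 2).Prime) ∧ x = q}

/-- twenty-three twin primes -/
def S2 : Finset ℕ := {3, 5, 7, 11, 13, 17, 19, 29, 31, 41, 43, 59, 61, 71, 73, 101, 103, 107, 109, 137, 139, 149, 151}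

/-- twenty-three primes, one in each class modulo `23` -/
def S1 : Finset ℕ := {2, 3, 5, 7, 11, 13, 17, 19, 23, 29, 31, 37, 41, 43, 47, 61, 67, 73, 79, 101, 127, 131, 137}

lemma hS2 : ∀ s ∈ S2.image (fun q : ℕ => (q : ℤ)), s ∈ P2 := by
  intro s hs
  obtain ⟨q, hq, rfl⟩ := mem_image.1 hs
  have h : ∀ q ∈ S2, q.Prime ∧ ((q - 2).Prime ∨ (q + 2).Prime) := by
    unfold S2
    intro q hq
    simp only [mem_insert, mem_singleton] at hq
    rcases hq with rfl | rfl | rfl | rfl | rfl | rfl | rfl | rfl | rfl | rfl | rfl | rfl | rfl | rfl | rfl | rfl | rfl | rfl | rfl | rfl | rfl | rfl | rfl <;> norm_num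
  exact ⟨q, (h q hq).1, (h q hq).2, rfl⟩

lemma hS1 : ∀ s ∈ S1.image (fun q : ℕ => (q : ℤ)), s ∈ P := by
  intro s hs
  obtain ⟨q, hq, rfl⟩ := mem_image.1 hs
  have h : ∀ q ∈ S1, q.Prime := by
    unfold S1
    intro q hq
    simp only [mem_insert, mem_singleton] at hq
    rcases hq with rfl | rfl | rfl | rfl | rfl | rfl | rfl | rfl | rfl | rfl | rfl | rfl | rfl | rfl | rfl | rfl | rfl | rfl | rfl | rfl | rfl | rfl | rfl <;> norm_num
  exact ⟨q, h q hq, rfl⟩

lemma cast_card (S : Finset ℕ) : (S.image (fun q : ℕ => (q : ℤ))).card = S.card :=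
  card_image_of_injective _ Nat.cast_injective

lemma hinj : ∀ s ∈ S1.image (fun q : ℕ => (q : ℤ)), ∀ t ∈ S1.image (fun q : ℕ => (q : ℤ)),
    ((23 : ℕ) : ℤ) ∣ s - t → s = t := by
  intro s hs t ht h
  obtain ⟨q, hq, rfl⟩ := mem_image.1 hs
  obtain ⟨r, hr, rfl⟩ := mem_image.1 ht
  have h2 : ∀ q ∈ S1, ∀ r ∈ S1, q % 23 = r % 23 → q = r := by decide
  have h3 : (r : ℤ) ≡ (q : ℤ) [ZMOD (23 : ℕ)] := (Int.modEq_iff_dvd).2 h
  have h4 : r ≡ q [MOD 23] := (Int.natCast_modEq_iff).1 h3
  have h5 : q % 23 = r % 23 := h4.symm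
  rw [h2 q hq r hr h5]

lemma hP2 : ∀ x ∈ P2, ¬ ((23 : ℕ) : ℤ) ∣ x := by
  rintro x ⟨q, hq, h, rfl⟩ hd
  have h1 : 23 ∣ q := Int.natCast_dvd_natCast.1 hd
  have h2 : 23 = q := (Nat.prime_dvd_prime_iff_eq (by norm_num) hq).1 h1
  subst h2
  norm_num at h

/-- **Theorem.** The Bhargava factorials `22!` of the set of the twin primes and of the set of all primes
are defined, `23` divides the first one and not the second one, and the first one is not `2 w_2(22)` times
the second one. -/
theorem result : (∃ f, IsFactorial P2 22 f) ∧ (∃ g, IsFactorial P 22 g) ∧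
    ∀ f g : ℕ, IsFactorial P2 22 f → IsFactorial P 22 g →
      23 ∣ f ∧ ¬ 23 ∣ g ∧ f ≠ 2 * w 2 22 * g := by
  refine ⟨exists_factorial 22 _ hS2 (by rw [cast_card]; decide),
    exists_factorial 22 _ hS1 (by rw [cast_card]; decide), fun f g hf hg => ?_⟩
  have h23 : Nat.Prime 23 := by norm_num
  have h1 : 23 ∣ f := dvd_factorial h23 hf hP2 (by norm_num)
  have h2 : ¬ 23 ∣ g := not_dvd_factorial h23 hg _ hS1 (by rw [cast_card]; decide) hinj
  refine ⟨h1, h2, fun h => ?_⟩
  rw [h, Nat.Prime.dvd_mul h23, Nat.Prime.dvd_mul h23] at h1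
  rcases h1 with (h1 | h1) | h1
  · norm_num at h1
  · exact not_dvd_w h23 Nat.prime_two (by norm_num) h1
  · exact h2 h1

end Pool.Agent.Results.MP_e482b1_nt.TwinPrimeRatioFails
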